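import Pool.Agent.MP_8be872_ag.H63.ApiC
import Pool.Agent.MP_8be872_ag.H63.Tool

/-! Filtered complexes, a telescoping sum and words. -/

namespace Pool.Agent.MP_8be872_ag.H27

open Finset H63

section Filt

variable {M ι : Type} [AddCommGroup M] [Module ℂ M] {D : Module.End ℂ M}
  {Z : Bool → Submodule ℂ M}

/-- `B` is stable on cochains. -/
def St (D : Module.End ℂ M) (Z : Bool → Submodule ℂ M) (B : Submodule ℂ M) : Prop :=
  ∀ p, ∀ x ∈ Z p, x ∈ B → D x ∈ B

/-- Sets of admissible indices closed under raising the degree. -/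
def Upper (gr : ι → ℤ) (Ps : ι → Prop) (S : Set ι) : Prop :=
  ∀ b ∈ S, ∀ b', Ps b' → gr b < gr b' → b' ∈ S

theorem cx_sat (hZ : ∀ p, ∀ x ∈ Z p, D x ∈ Z (!p)) (hD : ∀ x, D (D x) = 0) {B B' : Submodule ℂ M}
    (h : St D Z B) (h' : St D Z B') : IsCx D (fun p => Z p ⊓ B') B :=
  ⟨fun p x hx => ⟨hZ p x hx.1, h' p x hx.1 hx.2⟩, fun p x hx => h p x hx.1,
    fun _ x _ => by rw [hD]; exact zero_mem _⟩

theorem ses_sat (hZ : ∀ p, ∀ x ∈ Z p, D x ∈ Z (!p)) (hD : ∀ x, D (D x) = 0)
    {B B' B'' : Submodule ℂ M} (h : St D Z B) (h' : St D Z B') (h'' : St D Z B'') (l1 : B ≤ B')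
    (l2 : B' ≤ B'') : Ses D (fun p => Z p ⊓ B'') (fun p => Z p ⊓ B') B B' :=
  ⟨cx_sat hZ hD h h'', fun _ => inf_le_inf_left _ l2, (cx_sat hZ hD h h').mapZ,
    fun _ x hx => ⟨fun hb => ⟨x, ⟨hx.1, hb⟩, by simp⟩,
      fun ⟨_, hy, hxy⟩ => TL.of_sub (l1 hxy) hy.2⟩⟩

theorem filt (hZ : ∀ p, ∀ x ∈ Z p, D x ∈ Z (!p)) (hD : ∀ x, D (D x) = 0) (gr : ι → ℤ)
    (Ps : ι → Prop) (V : Set ι → Submodule ℂ M) (hV : Monotone V)
    (hst : ∀ S, Upper gr Ps S → St D Z (V S))
    (hex : ∀ x, ∃ k : ℕ, x ∈ V {b | Ps b ∧ -(k : ℤ) ≤ gr b})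
    (hfin : ∀ k : ℕ, {b | Ps b ∧ -(k : ℤ) ≤ gr b}.Finite) (n : ι → ℤ) (bad : ι → Prop)
    (hbad : {b | Ps b ∧ bad b}.Finite) (hn : ∀ b, Ps b → ¬ bad b → n b = 0)
    (piece : ∀ S a, Upper gr Ps S → Upper gr Ps (insert a S) → Ps a → a ∉ S →
      HasChi D (fun p => Z p ⊓ V (insert a S)) (V S) (n a) ∧
        (¬ bad a → Acy D (fun p => Z p ⊓ V (insert a S)) (V S))) :
    HasChi D Z (V ∅) (∑ᶠ b ∈ {b | Ps b}, n b) := by
  classical
  have ind : ∀ S, Upper gr Ps S → ∀ t : Finset ι, (∀ b ∈ t, Ps b ∧ b ∉ S) →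
      Upper gr Ps (↑t ∪ S) → HasChi D (fun p => Z p ⊓ V (↑t ∪ S)) (V S) (∑ b ∈ t, n b) ∧
        ((∀ b ∈ t, ¬ bad b) → Acy D (fun p => Z p ⊓ V (↑t ∪ S)) (V S)) := by
    intro S hS t
    induction t using Finset.induction_on_min_value gr with
    | empty =>
      intro _ _
      have : Acy D (fun p => Z p ⊓ V (↑(∅ : Finset ι) ∪ S)) (V S) :=
        acy_of_le fun p => by simp
      exact ⟨this.hasChi, fun _ => this⟩
    | insert a t ha hmin ih =>
      intro ht hU
      rw [coe_insert, Set.insert_union] at hU ⊢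
      have hU' : Upper gr Ps (↑t ∪ S) := by
        rintro b (hb | hb) b' h1 h2
        · refine (hU b (Or.inr (Or.inl hb)) b' h1 h2).resolve_left ?_
          rintro rfl
          exact absurd (hmin b hb) (not_le.2 h2)
        · exact Or.inr (hS b hb b' h1 h2)
      obtain ⟨i1, i2⟩ := ih (fun b hb => ht b (mem_insert_of_mem hb)) hU'
      obtain ⟨p1, p2⟩ := piece _ a hU' hU (ht a (mem_insert_self _ _)).1
        fun h => h.elim ha (ht a (mem_insert_self _ _)).2
      have ses := ses_sat hZ hD (hst _ hS) (hst _ hU') (hst _ hU) (hV Set.subset_union_right)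
        (hV (Set.subset_insert _ _))
      refine ⟨?_, fun h => ses.acy_mid (i2 fun b hb => h b (mem_insert_of_mem hb))
        (p2 (h a (mem_insert_self _ _)))⟩
      rw [sum_insert ha, add_comm]
      exact ses.chi_mid i1 p1
  have hup : ∀ k : ℕ, Upper gr Ps {b | Ps b ∧ -(k : ℤ) ≤ gr b} :=
    fun k b hb b' h1 h2 => ⟨h1, hb.2.trans h2.le⟩
  have hup0 : Upper gr Ps ∅ := fun _ hb => hb.elim
  obtain ⟨k, hk⟩ : ∃ k : ℕ, ∀ b, Ps b → bad b → -(k : ℤ) ≤ gr b := by
    obtain ⟨m, hm⟩ := (hbad.image gr).bddBelow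
    exact ⟨(-m).toNat, fun b h1 h2 => le_trans (by omega) (hm ⟨b, ⟨h1, h2⟩, rfl⟩)⟩
  set S := {b | Ps b ∧ -(k : ℤ) ≤ gr b} with hS
  have e0 : (↑(hfin k).toFinset : Set ι) ∪ ∅ = S := by simp [hS]
  have c1 := (ind ∅ hup0 (hfin k).toFinset (fun b hb => ⟨((hfin k).mem_toFinset.1 hb).1, id⟩)
    (e0 ▸ hup k)).1
  rw [e0] at c1
  have c2 : Acy D (fun p => Z p ⊓ ⊤) (V S) := by
    intro p x hx hd
    obtain ⟨k', hk'⟩ := hex x
    have hf := (hfin (max k k')).sdiff (t := S)
    have e1 : (↑hf.toFinset : Set ι) ∪ S = {b | Ps b ∧ -((max k k' : ℕ) : ℤ) ≤ gr b} := by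
      rw [hf.coe_toFinset]
      exact Set.sdiff_union_of_subset fun b hb => ⟨hb.1, le_trans (by omega) hb.2⟩
    have c3 := (ind S (hup k) hf.toFinset
      (fun b hb => ⟨(hf.mem_toFinset.1 hb).1.1, (hf.mem_toFinset.1 hb).2⟩) (by rw [e1]; exact hup _)).2
      fun b hb h => (hf.mem_toFinset.1 hb).2
        ⟨(hf.mem_toFinset.1 hb).1.1, hk b (hf.mem_toFinset.1 hb).1.1 h⟩
    rw [e1] at c3
    obtain ⟨y, hy, hxy⟩ := c3 p x
      ⟨hx.1, hV (Set.ofPred_subset_ofPred.2 fun b hb => ⟨hb.1, le_trans (by omega) hb.2⟩) hk'⟩ hd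
    exact ⟨y, ⟨hy.1, trivial⟩, hxy⟩
  have c4 := (ses_sat hZ hD (hst _ hup0) (hst _ (hup k)) (B'' := ⊤) (fun _ _ _ _ => trivial)
    (hV (Set.empty_subset _)) le_top).chi_mid c1 c2.hasChi
  simp only [inf_top_eq, add_zero] at c4
  rw [finsum_mem_eq_sum_of_inter_support_eq (t := (hfin k).toFinset) n]
  · exact c4
  · rw [(hfin k).coe_toFinset]
    ext b
    exact ⟨fun h => ⟨⟨h.1, hk b h.1 (by_contra fun h' => h.2 (hn b h.1 h'))⟩, h.2⟩,
      fun h => ⟨h.1.1, h.2⟩⟩

end Filt

section Tel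

variable {J Γ : Type} [Fintype J] [DecidableEq J] [AddCommGroup Γ]

/-- Exponents of the top polar part. -/
def Pos (A : Finset J) (b : J → ℤ) : Prop := (∀ j ∈ A, 1 ≤ b j) ∧ ∀ j ∉ A, b j = 0

/-- The sign. -/
def sgA (A : Finset J) (n : ℤ) : ℤ := if decide (Odd A.card) then -n else n

omit [DecidableEq J] in
theorem fin_pos (A : Finset J) (w : J → ℤ) (hw : ∀ j ∈ A, 0 < w j) (N : ℤ) :
    {b | Pos A b ∧ ∑ j, b j * w j ≤ N}.Finite := by
  classical
  refine (Set.Finite.pi' fun _ : J => Set.finite_Icc (0 : ℤ) (max N 0)).subset ?_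
  rintro b ⟨⟨h1, h2⟩, h3⟩ j
  have h0 : ∀ i ∈ (univ : Finset J), 0 ≤ b i * w i := fun i _ => by
    by_cases hi : i ∈ A
    · exact mul_nonneg (by linarith [h1 i hi]) (hw i hi).le
    · rw [h2 i hi, zero_mul]
  by_cases hj : j ∈ A
  · have h4 := single_le_sum h0 (mem_univ j)
    have h5 := h1 j hj
    have h6 := hw j hj
    exact ⟨by omega, le_max_of_le_left (by nlinarith)⟩
  · rw [h2 j hj]
    exact ⟨le_rfl, le_max_right _ _⟩

omit [DecidableEq J] in
theorem fin_bad (A : Finset J) (β : J → Γ) (l : Γ →+ ℤ) (hl : ∀ j ∈ A, 0 < l (β j)) (C : ℤ)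
    (γ : Γ) : {b | Pos A b ∧ ¬ C < l (γ + ∑ j, b j • β j)}.Finite := by
  refine (fin_pos A (fun j => l (β j)) hl (C - l γ)).subset fun b hb => ⟨hb.1, ?_⟩
  have := hb.2
  simp only [map_add, map_sum, map_zsmul, smul_eq_mul] at this
  omega

theorem tele (β : J → Γ) (l : Γ →+ ℤ) (C : ℤ) (e : Γ → ℤ) (he : ∀ γ, C < l γ → e γ = 0)
    (A : Finset J) (hl : ∀ j ∈ A, 0 < l (β j)) :
    shl (A.toList.map β) (fun γ => ∑ᶠ b ∈ {b | Pos A b}, sgA A (e (γ + ∑ j, b j • β j))) = e := by
  induction A using Finset.induction_on with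
  | empty =>
    have : {b : J → ℤ | Pos ∅ b} = {0} := by
      ext b
      simp [Pos, funext_iff]
    funext γ
    simp [this, shl_nil, sgA]
  | insert i A hi ih =>
    have hp : ((insert i A).toList.map β).Perm (A.toList.map β ++ [β i]) :=
      ((toList_insert hi).map β).trans (List.perm_append_singleton _ _).symm
    rw [shl_perm hp, shl_append]
    refine Eq.trans ?_ (ih fun j hj => hl j (mem_insert_of_mem hj))
    congr 1
    funext γ
    have hs : ∀ n, sgA (insert i A) n = -sgA A n := fun n => by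
      unfold sgA
      rw [card_insert_of_notMem hi, H29.decide_odd_succ]
      cases decide (Odd A.card) <;> simp
    have hf : ∀ B : Finset J, (∀ j ∈ B, 0 < l (β j)) → ({b | Pos B b} ∩ Function.support
        fun b : J → ℤ => sgA (insert i A) (e (γ + ∑ j, b j • β j))).Finite := fun B hB =>
      (fin_bad B β l hB C γ).subset fun b hb => ⟨hb.1, fun h => hb.2 (by
        simp only [he _ h, sgA, neg_zero, ite_self])⟩
    have e1 : (fun b : J → ℤ => b + Pi.single i 1) ''
        ({b | Pos (insert i A) b} ∪ {b | Pos A b}) = {b | Pos (insert i A) b} := by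
      ext b
      constructor
      · rintro ⟨b, hb, rfl⟩
        refine ⟨fun j hj => ?_, fun j hj => ?_⟩
        · by_cases h : j = i
          · subst h
            rcases hb with hb | hb
            · have := hb.1 j hj
              simp only [Pi.add_apply, Pi.single_eq_same]
              omega
            · simp [hb.2 j hi]
          · simp only [Pi.add_apply, Pi.single_eq_of_ne h, add_zero]
            exact hb.elim (fun hb => hb.1 j hj) fun hb => hb.1 j ((mem_insert.1 hj).resolve_left h)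
        · rw [mem_insert, not_or] at hj
          simp only [Pi.add_apply, Pi.single_eq_of_ne hj.1, add_zero]
          exact hb.elim (fun hb => hb.2 j (by simp [hj])) fun hb => hb.2 j hj.2
      · intro hb
        refine ⟨b - Pi.single i 1, ?_, sub_add_cancel _ _⟩
        have h1 := hb.1 i (mem_insert_self _ _)
        have h2 : ∀ j, j ≠ i → (b - Pi.single i 1 : J → ℤ) j = b j := fun j h => by simp [h]
        have h3 : (b - Pi.single i 1 : J → ℤ) i = b i - 1 := by simp
        by_cases h : b i = 1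
        · refine Or.inr ⟨fun j hj => ?_, fun j hj => ?_⟩
          · rw [h2 j (ne_of_mem_of_not_mem hj hi)]
            exact hb.1 j (mem_insert_of_mem hj)
          · by_cases h' : j = i
            · rw [h', h3, h, sub_self]
            · rw [h2 j h']
              exact hb.2 j (by simp [h', hj])
        · refine Or.inl ⟨fun j hj => ?_, fun j hj => ?_⟩
          · by_cases h' : j = i
            · rw [h', h3]
              omega
            · rw [h2 j h']
              exact hb.1 j hj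
          · rw [h2 j fun h' => hj (by simp [h'])]
            exact hb.2 j hj
    have e2 : ∀ b : J → ℤ, γ - β i + ∑ j, (b + Pi.single i 1 : J → ℤ) j • β j =
        γ + ∑ j, b j • β j := fun b => by
      simp only [Pi.add_apply, add_smul, sum_add_distrib]
      simp only [Pi.single_apply, ite_smul, one_smul, zero_smul, sum_ite_eq', mem_univ, if_true]
      abel
    rw [shl_cons, shl_nil]
    conv_lhs => enter [2]; rw [← e1, finsum_mem_image (add_left_injective _).injOn]
    simp only [e2]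
    rw [finsum_mem_union' (Set.disjoint_left.2 fun b h1 h2 => by
        have := h1.1 i (mem_insert_self _ _)
        rw [h2.2 i hi] at this
        omega) (hf _ hl) (hf _ fun j hj => hl j (mem_insert_of_mem hj)),
      sub_add_cancel_left]
    simp only [hs, finsum_neg_distrib, neg_neg]

end Tel

section Word

variable {E O : Type} [Fintype E] [Fintype O] [DecidableEq E] [DecidableEq O]
  {P : (E ⊕ O → ℕ) → Prop} {x : Sp E O}

omit [Fintype E] in
theorem words_bot {m : Module.End ℂ (Sp E O)} (h : m ∈ words fun _ => False) : m = 0 := by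
  simpa [words] using h

theorem div_gn (g : E ⊕ O) (hx : x ∈ mono P) (h : ∀ μ, P μ → μ g ≠ 0) :
    ∃ x' ∈ mono fun μ => P (μ + Pi.single g 1), gn g x' = x := by
  refine mono_le_of_bas (C := (mono fun μ => P (μ + Pi.single g 1)).map (gn g))
    (fun S m hP => ?_) hx
  have h1 := euler_apply (Pi.single g 1) (a := (ex S m g : ℂ)) (x := bas S m) (bas_mem (by
    rw [ws, sum_eq_single g (fun g' _ h => by simp [h]) (by simp)]
    simp))
  have h2 : (ex S m g : ℂ) ≠ 0 := Nat.cast_ne_zero.2 (h _ hP)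
  rw [vf, sum_eq_single g (fun g' _ h => by simp [h]) (by simp), Pi.single_eq_same, one_smul,
    Module.End.mul_apply] at h1
  refine ⟨(ex S m g : ℂ)⁻¹ • dr g (bas S m),
    Submodule.smul_mem _ _ (dr_mem g (bas_mem hP) fun _ h => h), ?_⟩
  rw [map_smul, h1, smul_smul, inv_mul_cancel₀ h2, one_smul]

theorem div_word (l : List (E ⊕ O)) (hx : x ∈ mono P) (h : ∀ μ, P μ → ∀ g, l.count g ≤ μ g) :
    ∃ x' ∈ mono fun μ => P ((fun g => l.count g) + μ), (l.map gn).prod x' = x := by
  induction l generalizing P x with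
  | nil => exact ⟨x, mono_le (fun μ hμ => by convert hμ; funext g; simp) hx, rfl⟩
  | cons g l ih =>
    obtain ⟨y, hy, rfl⟩ := div_gn g hx fun μ hμ => by
      have := h μ hμ g
      rw [congrFun (count_cons' g l) g, Pi.add_apply, Pi.single_eq_same] at this
      omega
    obtain ⟨z, hz, rfl⟩ := ih hy fun μ hμ g' => by
      have := h _ hμ g'
      rw [congrFun (count_cons' g l) g'] at this
      simpa using this
    exact ⟨z, mono_le (fun μ hμ => by rwa [count_cons', add_right_comm]) hz, rfl⟩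

omit [Fintype E] in
theorem word_words (l : List (E ⊕ O)) (h : P fun g => l.count g) :
    ((l.map gn).prod : Module.End ℂ (Sp E O)) ∈ words P :=
  Submodule.subset_span ⟨l, h, rfl⟩

theorem word_inj (l : List (E ⊕ O)) (hn : ∀ g, l.count g ≤ 1)
    (hx : x ∈ mono fun μ => ∀ g, l.count g ≠ 0 → μ g = 0) (h : (l.map gn).prod x = 0) :
    x = 0 := by
  induction l with
  | nil => exact h
  | cons g l ih =>
    have hc : ∀ g', (g :: l).count g' = l.count g' + (Pi.single g 1 : E ⊕ O → ℕ) g' :=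
      congrFun (count_cons' g l)
    simp only [hc] at hn hx
    refine ih (fun g' => le_trans (Nat.le_add_right _ _) (hn g'))
      (mono_le (fun μ hμ g' hg => hμ g' (by omega)) hx) ?_
    have h0 := hn g
    rw [Pi.single_eq_same] at h0
    have h1 : (l.map gn).prod x ∈ mono fun μ => μ g = 0 :=
      word_mem l hx fun b hb => by
        rw [Pi.add_apply, hb g (by simp)]
        omega
    have h2 := LinearMap.congr_fun (dr_mul_gn g g) ((l.map gn).prod x)
    rw [List.map_cons, List.prod_cons, Module.End.mul_apply] at h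
    simpa [h, dr_eq_zero g h1] using h2.symm

theorem exists_bd (φ : (E ⊕ O → ℕ) → ℕ) (x : Sp E O) : ∃ n : ℕ, x ∈ mono fun μ => φ μ ≤ n :=
  ⟨univ.sup fun S => (x S).support.sup fun m => φ (ex S m), mem_mono.2 fun S _ h =>
    (Finset.le_sup (f := fun m => φ (ex S m)) (MvPolynomial.mem_support_iff.2 h)).trans
      (Finset.le_sup (f := fun S => (x S).support.sup fun m => φ (ex S m)) (mem_univ S))⟩

/-- Setting some even generators to one. -/
theorem exists_kap (H : E ⊕ O → Prop) (hH : ∀ g, H g → g.isRight = false) :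
    ∃ κ : Module.End ℂ (Sp E O), (∀ g x, H g → κ (gn g x) = κ x) ∧
      (∀ g x, ¬ H g → κ (gn g x) = gn g (κ x)) ∧ ∀ x ∈ mono (sup fun g => ¬ H g), κ x = x := by
  classical
  let r : E ⊕ O → Module.End ℂ (Sp E O) := fun g => if H g then 1 else gn g
  have hr : ∀ g h, r g * r h = sg (g.isRight && h.isRight) • (r h * r g) := fun g h => by
    by_cases h1 : H g
    · simp [r, h1, hH g h1, sg]
    · by_cases h2 : H h
      · simp [r, h2, hH h h2, sg]
      · simp only [r, h1, h2, if_false]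
        exact gn_mul_gn g h
  have k : ∀ g x, lift r (gn g x) one = r g (lift r x one) := fun g x => by
    rw [lift_gn hr, Module.End.mul_apply]
  refine ⟨LinearMap.applyₗ one ∘ₗ lift r, fun g x h => ?_, fun g x h => ?_, ?_⟩
  · simpa [r, h] using k g x
  · simpa [r, h] using k g x
  · exact mono_ind (C := LinearMap.eqLocus (LinearMap.applyₗ one ∘ₗ lift r) LinearMap.id)
      (by simp [LinearMap.mem_eqLocus, lift_one]) fun g hg y _ hy => by
        have hy' : lift r y one = y := hy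
        change lift r (gn g y) one = gn g y
        rw [k, hy']
        simp [r, hg]

theorem kap_inj {H : E ⊕ O → Prop} {κ : Module.End ℂ (Sp E O)}
    (k1 : ∀ g x, H g → κ (gn g x) = κ x) (k2 : ∀ g x, ¬ H g → κ (gn g x) = gn g (κ x))
    (l : List (E ⊕ O)) (hn : ∀ g, ¬ H g → l.count g ≤ 1) (hx : κ x = x)
    (hx' : x ∈ mono fun μ => ∀ g, l.count g ≠ 0 → μ g = 0) (h : κ ((l.map gn).prod x) = 0) :
    x = 0 := by
  have key : ∀ l : List (E ⊕ O), ∃ l' : List (E ⊕ O), κ ((l.map gn).prod x) = (l'.map gn).prod x ∧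
      ∀ g, l'.count g ≤ l.count g ∧ (H g → l'.count g = 0) := by
    intro l
    induction l with
    | nil => exact ⟨[], hx, fun g => ⟨le_rfl, fun _ => rfl⟩⟩
    | cons g l ih =>
      obtain ⟨l', h1, h2⟩ := ih
      rw [List.map_cons, List.prod_cons, Module.End.mul_apply]
      by_cases hg : H g
      · exact ⟨l', by rw [k1 g _ hg, h1], fun g' =>
          ⟨(h2 g').1.trans (List.count_le_count_cons ..), (h2 g').2⟩⟩
      · refine ⟨g :: l', by rw [k2 g _ hg, h1]; rfl, fun g' => ?_⟩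
        rw [congrFun (count_cons' g l) g', congrFun (count_cons' g l') g', Pi.add_apply,
          Pi.add_apply]
        refine ⟨Nat.add_le_add_right (h2 g').1 _, fun h' => ?_⟩
        rw [(h2 g').2 h', Pi.single_eq_of_ne (ne_of_mem_of_not_mem (s := {g | H g}) h' hg), add_zero]
  obtain ⟨l', h1, h2⟩ := key l
  refine word_inj l' (fun g => ?_) (mono_le (fun μ hμ g hg => hμ g ?_) hx') (h1 ▸ h)
  · by_cases hg : H g
    · rw [(h2 g).2 hg]
      exact zero_le_one
    · exact (h2 g).1.trans (hn g hg)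
  · have := (h2 g).1
    omega

/-- `m` is a word with exponent vector `ν`. -/
def IsW (ν : E ⊕ O → ℕ) (m : Module.End ℂ (Sp E O)) : Prop :=
  ∃ l : List (E ⊕ O), (fun g => l.count g) = ν ∧ m = (l.map gn).prod

variable {ν : E ⊕ O → ℕ} {m : Module.End ℂ (Sp E O)}

theorem exists_W (S : Finset O) (t : E →₀ ℕ) : ∃ m, IsW (ex S t) m :=
  let ⟨l, hl, _⟩ := bas_eq_word S t
  ⟨_, l, hl, rfl⟩

omit [Fintype E] in
theorem IsW.words (h : IsW ν m) (hP : P ν) : m ∈ words P := by
  obtain ⟨l, rfl, rfl⟩ := h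
  exact word_words l hP

theorem IsW.mem (h : IsW ν m) {P' : (E ⊕ O → ℕ) → Prop} (hx : x ∈ mono P)
    (hP : ∀ b, P b → P' (ν + b)) : m x ∈ mono P' := by
  obtain ⟨l, rfl, rfl⟩ := h
  exact word_mem l hx hP

theorem IsW.div (h : IsW ν m) (hx : x ∈ mono P) (hP : ∀ μ, P μ → ∀ g, ν g ≤ μ g) :
    ∃ x' ∈ mono fun μ => P (ν + μ), m x' = x := by
  obtain ⟨l, rfl, rfl⟩ := h
  exact div_word l hx hP

theorem IsW.inj (h : IsW ν m) {H : E ⊕ O → Prop} {κ : Module.End ℂ (Sp E O)}
    (k1 : ∀ g x, H g → κ (gn g x) = κ x) (k2 : ∀ g x, ¬ H g → κ (gn g x) = gn g (κ x))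
    (hn : ∀ g, ¬ H g → ν g ≤ 1) (hx : κ x = x)
    (hx' : x ∈ mono fun μ => ∀ g, ν g ≠ 0 → μ g = 0) (h0 : κ (m x) = 0) : x = 0 := by
  obtain ⟨l, rfl, rfl⟩ := h
  exact kap_inj k1 k2 l hn hx hx' h0

end Word

end Pool.Agent.MP_8be872_ag.H27
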