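import Pool.Agent.MP_8be872_ag.H27.Pl1
import Pool.Agent.MP_8be872_ag.H63.LocA

/-! The filtration by pole orders. -/

namespace Pool.Agent.MP_8be872_ag.H27

open Finset H63 MvPolynomial

variable {E O J Γ : Type} [Fintype E] [Fintype O] [Fintype J] [DecidableEq E] [DecidableEq O]
  [DecidableEq J] [AddCommGroup Γ]

/-- The hypotheses. -/
structure PD (Al : Gn E O J → Prop) (c : Gn E O J → Γ) (δ : Gn E O J → Op E O J) (ω : Op E O J)
    (f : J → MvPolynomial (E ⊕ J) ℂ) (j₀ : J) (A : Finset J) (n : J → E ⊕ J)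
    (K : Gn E O J → Prop) (ρ : Gn E O J → ℤ) : Prop where
  good : Good Al c δ ω f
  hj : j₀ ∉ A
  inj : Set.InjOn n A
  hf : ∀ j ∈ A, f j = X (n j)
  hK : ∀ g, K g ↔ ∃ j ∈ A, g = .inl (n j)
  kAl : ∀ g, K g → Al g ∧ ρ g < 0
  pos : ∀ g, Al g → ¬ K g → 0 < ρ g
  hδ : ∀ g, δ g ∈ words fun μ => ws ρ μ < ρ g

/-- Pole orders. -/
def bt (A : Finset J) (n : J → E ⊕ J) (μ : Gn E O J → ℕ) : J → ℤ :=
  fun j => if j ∈ A then (μ (tv j) : ℤ) - μ (.inl (n j)) else 0

/-- The degree of a vector of pole orders. -/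
def grd (A : Finset J) (n : J → E ⊕ J) (ρ : Gn E O J → ℤ) (b : J → ℤ) : ℤ :=
  ∑ j ∈ A, ρ (.inl (n j)) * b j

/-- No `T_j`, `j ∈ A`. -/
def TF (A : Finset J) (μ : Gn E O J → ℕ) : Prop := ∀ j ∈ A, μ (tv j) = 0

/-- Some `T_j`, `j ∈ A`, is missing. -/
def YP (A : Finset J) (μ : Gn E O J → ℕ) : Prop := ∃ j ∈ A, μ (tv j) = 0

/-- Equal or of larger degree. -/
def Up (A : Finset J) (n : J → E ⊕ J) (ρ : Gn E O J → ℤ) (b b' : J → ℤ) : Prop :=
  b' = b ∨ grd A n ρ b < grd A n ρ b'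

/-- Monomials with pole orders in `S` or without top pole. -/
noncomputable def UU (O : Type) [Fintype O] [DecidableEq O] (A : Finset J) (n : J → E ⊕ J)
    (S : Set (J → ℤ)) : Submodule ℂ (Sp (E ⊕ J) (O ⊕ J)) :=
  mono fun μ => bt A n μ ∈ S ∨ ¬ Pos A (bt A n μ)

variable {Al : Gn E O J → Prop} {c : Gn E O J → Γ} {δ : Gn E O J → Op E O J} {ω : Op E O J}
  {f : J → MvPolynomial (E ⊕ J) ℂ} {j₀ : J} {A : Finset J} {n : J → E ⊕ J}
  {K : Gn E O J → Prop} {ρ : Gn E O J → ℤ} {μ ν : Gn E O J → ℕ} {x : Sp (E ⊕ J) (O ⊕ J)}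
  {S : Set (J → ℤ)} {γ : Γ} {p : Bool}

set_option linter.unusedSectionVars false

theorem bt_add (μ ν : Gn E O J → ℕ) : bt A n (μ + ν) = bt A n μ + bt A n ν := by
  funext j
  simp only [bt, Pi.add_apply]
  split_ifs
  · push_cast; ring
  · rfl

theorem grd_add (b b' : J → ℤ) : grd A n ρ (b + b') = grd A n ρ b + grd A n ρ b' := by
  simp only [grd, Pi.add_apply, mul_add, sum_add_distrib]

theorem grd_zero : grd A n ρ 0 = 0 := by simp [grd]

theorem grd_single {j : J} (hj : j ∈ A) : grd A n ρ (Pi.single j 1) = ρ (.inl (n j)) := by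
  rw [grd, sum_eq_single_of_mem j hj fun i _ h => by simp [h]]
  simp

theorem Up.add {b b' : J → ℤ} (h : Up A n ρ b b') (a : J → ℤ) : Up A n ρ (a + b) (b' + a) := by
  rcases h with h | h
  · exact Or.inl (by rw [h, add_comm])
  · exact Or.inr (by rw [grd_add, grd_add]; omega)

theorem bt_ev (j : J) : bt A n (Pi.single (ev j : Gn E O J) 1) = 0 := by
  funext i
  simp [bt]

theorem up_UU (hS : Upper (grd A n ρ) (Pos A) S) {b b' : J → ℤ} (hb : b ∈ S)
    (h : Up A n ρ b b') : b' ∈ S ∨ ¬ Pos A b' := by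
  rcases h with h | h
  · exact Or.inl (h ▸ hb)
  · exact or_iff_not_imp_right.2 fun h' => hS b hb b' (not_not.1 h') h

theorem yp_pos (h : YP A μ) : ¬ Pos A (bt A n μ) := fun h' => by
  obtain ⟨j, hj, h0⟩ := h
  have := h'.1 j hj
  rw [bt, if_pos hj, h0] at this
  omega

theorem sat (h : Good Al c δ ω f) {J₀ J₁ : Finset J} {P : (Gn E O J → ℕ) → Prop}
    (hx : x ∈ ZZ Al c J₀ J₁ γ p) (hb : x ∈ rel f ⊔ mono P) :
    ∃ y ∈ mono fun μ => (cech Al J₀ J₁ μ ∧ ws c μ = γ ∧ od μ = p) ∧ P μ, x - y ∈ rel f := by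
  obtain ⟨r, hr, v, hv, rfl⟩ := Submodule.mem_sup.1 hb
  refine ⟨proj (fun μ => cech Al J₀ J₁ μ ∧ ws c μ = γ ∧ od μ = p) v, ?_, ?_⟩
  · rw [mono_and]
    exact ⟨proj_mem v, proj_mem_of hv⟩
  · have h1 := proj_rel (P := fun μ => cech Al J₀ J₁ μ ∧ ws c μ = γ ∧ od μ = p) (A := univ)
      (fun j _ m hm μ hμ => by
        obtain ⟨e1, e2, e3⟩ := h.cech_add J₀ J₁ j m hm μ hμ
        rw [e1, e2, e3]) (mono_le (fun _ _ j _ => mem_univ j) (apiC_top r)) hr
    refine TL.of_eq h1 ?_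
    rw [← proj_eq_self hx, map_add, add_sub_cancel_right]

variable (h : PD Al c δ ω f j₀ A n K ρ)
include h

theorem PD.kn {j : J} (hj : j ∈ A) : K (.inl (n j)) := (h.hK _).2 ⟨j, hj, rfl⟩

theorem PD.ne {j : J} (hj : j ∈ A) (i : J) : (.inl (n j) : Gn E O J) ≠ tv i := fun e =>
  h.good.alT i (e ▸ (h.kAl _ (h.kn hj)).1)

theorem PD.kT (j : J) : ¬ K (tv j) := fun e => h.good.alT j (h.kAl _ e).1

theorem PD.kE (j : J) : ¬ K (ev j) := fun e => h.good.alE j (h.kAl _ e).1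

theorem PD.al_T (hμ : sup Al μ) (j : J) : μ (tv j) = 0 :=
  by_contra fun e => h.good.alT j (hμ _ e)

theorem PD.al_E (hμ : sup Al μ) (j : J) : μ (ev j) = 0 :=
  by_contra fun e => h.good.alE j (hμ _ e)

theorem PD.free (hμ : ¬ has K μ) {j : J} (hj : j ∈ A) : μ (.inl (n j)) = 0 :=
  by_contra fun e => hμ ⟨_, h.kn hj, e⟩

theorem PD.tf_gr (hμ : TF A μ) :
    (¬ has K μ ∧ bt A n μ = 0) ∨ has K μ ∧ 0 < grd A n ρ (bt A n μ) := by
  by_cases hk : has K μ
  · refine Or.inr ⟨hk, ?_⟩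
    obtain ⟨g, h1, h2⟩ := hk
    obtain ⟨j, hj, rfl⟩ := (h.hK g).1 h1
    refine sum_pos' (fun i hi => ?_) ⟨j, hj, ?_⟩
    · rw [bt, if_pos hi, hμ i hi]
      exact mul_nonneg_of_nonpos_of_nonpos (h.kAl _ (h.kn hi)).2.le (by omega)
    · rw [bt, if_pos hj, hμ j hj]
      exact mul_pos_of_neg_of_neg (h.kAl _ h1).2 (by omega)
  · refine Or.inl ⟨hk, funext fun j => ?_⟩
    rw [bt]
    split_ifs with hj
    · simp [hμ j hj, h.free hk hj]
    · rfl

theorem PD.tf_up (hμ : TF A μ) (b : J → ℤ) : Up A n ρ b (bt A n μ + b) := by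
  have : Up A n ρ 0 (bt A n μ) :=
    (h.tf_gr hμ).imp (fun e => e.2) fun e => by rw [grd_zero]; exact e.2
  simpa using this.add b

theorem PD.al_gr (hμ : sup Al μ) : -ws ρ μ ≤ grd A n ρ (bt A n μ) := by
  have e1 : grd A n ρ (bt A n μ) = -∑ g ∈ A.image fun j => (.inl (n j) : Gn E O J), μ g • ρ g := by
    rw [sum_image fun i hi j hj e => h.inj hi hj (Sum.inl_injective e), grd, ← sum_neg_distrib]
    refine sum_congr rfl fun j hj => ?_
    rw [bt, if_pos hj, h.al_T hμ, nsmul_eq_mul]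
    push_cast
    ring
  rw [e1, neg_le_neg_iff, ws]
  refine sum_le_sum_of_subset_of_nonneg (subset_univ _) fun g _ hg => ?_
  by_cases h0 : μ g = 0
  · simp [h0]
  · refine nsmul_nonneg (h.pos g (hμ g h0) fun hk => hg ?_).le _
    obtain ⟨j, hj, rfl⟩ := (h.hK g).1 hk
    exact mem_image_of_mem _ hj

theorem PD.bt_T {j : J} (hj : j ∈ A) :
    bt A n (Pi.single (tv j : Gn E O J) 1) = Pi.single j 1 := by
  funext i
  rw [bt]
  split_ifs with hi
  · rw [Pi.single_eq_of_ne (h.ne hi j)]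
    by_cases e : i = j <;> simp [e]
  · rw [Pi.single_eq_of_ne (ne_of_mem_of_not_mem hj hi).symm]

theorem PD.bt_n {j : J} (hj : j ∈ A) :
    bt A n (Pi.single (.inl (n j) : Gn E O J) 1) = -Pi.single j 1 := by
  funext i
  rw [bt, Pi.neg_apply]
  split_ifs with hi
  · rw [Pi.single_eq_of_ne (h.ne hj i).symm]
    by_cases e : i = j
    · simp [e]
    · simp [e, mt (h.inj hi hj) e]
  · rw [Pi.single_eq_of_ne (ne_of_mem_of_not_mem hj hi).symm, neg_zero]

theorem PD.bt_else {g : Gn E O J} (h1 : ¬ K g) (h2 : ∀ j ∈ A, g ≠ tv j) :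
    bt A n (Pi.single g 1) = 0 :=
  ((h.tf_gr (μ := Pi.single g 1) fun j hj => Pi.single_eq_of_ne (h2 j hj).symm _).resolve_right
    fun e => h1 (has_single.1 e.1)).2

theorem PD.dK (g : Gn E O J) (hg : K g) : δ g ∈ words (has K) := by
  refine words_le (fun μ hμ => ?_) (words_and (h.good.dw g) (h.hδ g))
  have h1 := h.al_gr hμ.1.1
  have h2 := (h.kAl g hg).2
  have h3 := hμ.2
  refine ((h.tf_gr fun j _ => h.al_T hμ.1.1 j).resolve_left fun e => ?_).1
  rw [e.2, grd_zero] at h1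
  omega

theorem PD.dl_mem (g : Gn E O J) : dl δ f g ∈ words fun ν =>
    Up A n ρ (bt A n (Pi.single g 1)) (bt A n ν) ∧ ((∃ j ∈ A, g = tv j ∨ g = ev j) →
      grd A n ρ (bt A n (Pi.single g 1)) < grd A n ρ (bt A n ν)) ∧
      ∀ j, g ≠ tv j → ν (tv j) = 0 := by
  have key : ∀ g : Gn E O J, δ g ∈ words fun ν =>
      Up A n ρ (bt A n (Pi.single g 1)) (bt A n ν) ∧ ((∃ j ∈ A, g = tv j ∨ g = ev j) →
        grd A n ρ (bt A n (Pi.single g 1)) < grd A n ρ (bt A n ν)) ∧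
        ∀ j, g ≠ tv j → ν (tv j) = 0 := by
    intro g
    by_cases hg : Al g
    · refine words_le (fun ν hν => ⟨?_, ?_, fun j _ => h.al_T hν.1.1 j⟩)
        (words_and (h.good.dw g) (h.hδ g))
      · by_cases hk : K g
        · obtain ⟨j, hj, rfl⟩ := (h.hK g).1 hk
          have h1 := h.al_gr hν.1.1
          have h2 := hν.2
          have h3 := grd_add (A := A) (n := n) (ρ := ρ) (Pi.single j 1) (-Pi.single j 1)
          rw [add_neg_cancel, grd_zero, grd_single hj] at h3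
          exact Or.inr (by rw [h.bt_n hj]; omega)
        · rw [h.bt_else hk fun j _ e => h.good.alT j (e ▸ hg)]
          simpa using h.tf_up (fun j _ => h.al_T hν.1.1 j) 0
      · rintro ⟨j, -, rfl | rfl⟩
        · exact (h.good.alT j hg).elim
        · exact (h.good.alE j hg).elim
    · rw [h.good.dz g hg]
      exact zero_mem _
  rcases g with (e | j) | o
  · exact key _
  · have hT : (gn (tv j) * gn (tv j) : Op E O J) ∈
        words fun μ => μ = Pi.single (tv j) 1 + Pi.single (tv j) 1 :=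
      mul_mem_words (gn_mem_words (P := fun μ => μ = Pi.single (tv j) 1) rfl)
        (gn_mem_words (P := fun μ => μ = Pi.single (tv j) 1) rfl) fun a b ha hb => by rw [ha, hb]
    have h0 : ∀ b : Gn E O J → ℕ, sup Al b → ∀ i, tv j ≠ tv i →
        (Pi.single (tv j) 1 + Pi.single (tv j) 1 + b : Gn E O J → ℕ) (tv i) = 0 := fun b hb i e => by
      rw [Pi.add_apply, Pi.add_apply, Pi.single_eq_of_ne e.symm, h.al_T hb, add_zero,
        add_zero]
    refine neg_mem ?_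
    by_cases hj : j ∈ A
    · have e := vf_gn (s := true) (fun g => words_le (fun μ hμ => by simpa using hμ.2.2)
        (h.good.dw g)) (.inl (n j))
      have e' : vf δ * mul (f j) - mul (f j) * vf δ = δ (.inl (n j)) := by
        rw [h.hf j hj]
        simpa [sg, gn] using e
      rw [e']
      refine mul_mem_words hT (words_and (h.good.dw _) (h.hδ _)) ?_
      rintro _ b rfl hb
      have h1 := h.al_gr hb.1.1
      have h2 := hb.2
      have h3 : grd A n ρ (bt A n (Pi.single (tv j : Gn E O J) 1)) <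
          grd A n ρ (bt A n (Pi.single (tv j) 1 + Pi.single (tv j) 1 + b)) := by
        rw [bt_add, bt_add, grd_add, grd_add, h.bt_T hj, grd_single hj]
        omega
      exact ⟨Or.inr h3, fun _ => h3, h0 b hb.1.1⟩
    · refine mul_mem_words hT (h.good.uu_mem j) ?_
      rintro _ b rfl hb
      have h1 := h.bt_else (h.kT j) fun i hi e => hj (by simp at e; rwa [e])
      refine ⟨?_, ?_, h0 b hb.1⟩
      · rw [bt_add, bt_add, h1]
        simpa using h.tf_up (fun j _ => h.al_T hb.1 j) 0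
      · rintro ⟨i, hi, e | e⟩
        · exact (hj (by simp at e; rwa [e])).elim
        · simp at e
  · exact key _

theorem PD.D_up (B : Finset J) {P P' : (J → ℤ) → Prop} (hP : ∀ b b', P b → Up A n ρ b b' → P' b')
    (hx : x ∈ mono fun μ => P (bt A n μ)) : Dloc δ ω f B x ∈ mono fun μ => P' (bt A n μ) := by
  rw [h.good.Dloc_eq, LinearMap.add_apply, LinearMap.add_apply, LinearMap.sum_apply]
  refine add_mem (add_mem (vf_mem h.dl_mem hx fun g μ ν h1 h2 => hP _ _ h1 ?_)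
    (words_apply_mem h.good.ow hx fun a b ha hb => hP _ _ hb ?_))
    (sum_mem fun j _ => gn_mem _ hx fun μ hμ => hP _ _ hμ (Or.inl ?_))
  · rw [bt_add, bt_add]
    exact h2.1.add _
  · rw [bt_add]
    exact h.tf_up (fun j _ => h.al_T ha.1 j) _
  · rw [bt_add, bt_ev, add_zero]

theorem PD.D_Y (B : Finset J) (hx : x ∈ mono (YP A)) : Dloc δ ω f B x ∈ mono (YP A) := by
  rw [h.good.Dloc_eq, LinearMap.add_apply, LinearMap.add_apply, LinearMap.sum_apply]
  refine add_mem (add_mem (vf_mem h.dl_mem hx ?_) (words_apply_mem h.good.ow hx ?_))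
    (sum_mem fun j _ => gn_mem _ hx ?_)
  · rintro g μ ν ⟨j, hj, h1⟩ h2
    rw [Pi.add_apply, Nat.add_eq_zero_iff] at h1
    refine ⟨j, hj, ?_⟩
    rw [Pi.add_apply, h1.1, h2.2.2 j fun e => by simp [e] at h1]
  · rintro a b ha ⟨j, hj, h1⟩
    exact ⟨j, hj, by rw [Pi.add_apply, h1, h.al_T ha.1]⟩
  · rintro μ ⟨i, hi, h1⟩
    exact ⟨i, hi, by simpa using h1⟩

theorem PD.mul_rel {j : J} (hj : j ∈ A) :
    (mul (f j * X (.inr j) - 1) : Op E O J) = gn (.inl (n j)) * gn (tv j) - 1 := by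
  rw [h.hf j hj]
  exact (map_sub mulA _ _).trans (by rw [map_mul, map_one]; rfl)

theorem PD.red {J₁ : Finset J} {P : (J → ℤ) → Prop}
    (hx : x ∈ mono fun μ => (cech Al {j₀} J₁ μ ∧ ws c μ = γ ∧ od μ = p) ∧ P (bt A n μ)) :
    ∃ y ∈ mono fun μ => ((cech Al {j₀} J₁ μ ∧ ws c μ = γ ∧ od μ = p) ∧ P (bt A n μ)) ∧
      (¬ has K μ ∨ YP A μ), x - y ∈ rel f := by
  set Q := fun μ => (cech Al {j₀} J₁ μ ∧ ws c μ = γ ∧ od μ = p) ∧ P (bt A n μ) with hQ
  have key : ∀ N : ℕ, (mono fun μ => Q μ ∧ ∑ g, μ g < N) ≤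
      (mono fun μ => Q μ ∧ (¬ has K μ ∨ YP A μ)) ⊔ rel f := by
    intro N
    induction N with
    | zero => exact mono_le_of_bas fun S m hm => absurd hm.2 (Nat.not_lt_zero _)
    | succ N ih =>
      refine mono_le_of_bas fun S m hm => ?_
      by_cases hc : ¬ has K (ex S m) ∨ YP A (ex S m)
      · exact Submodule.mem_sup_left (bas_mem ⟨hm.1, hc⟩)
      · rw [not_or, not_not] at hc
        obtain ⟨⟨g, h1, h2⟩, h3⟩ := hc
        obtain ⟨j, hj, rfl⟩ := (h.hK g).1 h1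
        have h4 : ex S m (tv j) ≠ 0 := fun e => h3 ⟨j, hj, e⟩
        have h5 : ex S m (ev j) ≠ 0 := by
          rcases hm.1.1.1.1 _ h4 with e | ⟨i, e, e'⟩ | ⟨i, -, e⟩
          · exact (h.good.alT j e).elim
          · simp only [Sum.inl.injEq, Sum.inr.injEq] at e
            rwa [e]
          · simp at e
        obtain ⟨y, hy, e1⟩ := div_gn (.inl (n j)) (bas_mem (P := fun μ => μ = ex S m) rfl)
          fun μ hμ => hμ ▸ h2
        obtain ⟨z, hz, rfl⟩ := div_gn (tv j) hy fun μ hμ => by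
          rwa [← hμ, Pi.add_apply, Pi.single_eq_of_ne (h.ne hj j).symm, add_zero] at h4
        have h6 : z ∈ mono fun μ => (Q μ ∧ ∑ g, μ g < N) ∧ μ (ev j) ≠ 0 := by
          refine mono_le (fun μ hμ => ?_) hz
          have e2 : μ (ev j) ≠ 0 := by
            rw [← hμ] at h5
            simpa using h5
          obtain ⟨a1, a2, a3⟩ := h.good.cech_add {j₀} J₁ j (Finsupp.single (n j) 1)
            (by rw [h.hf j hj]; simp) μ e2
          have e3 : μ + ex ∅ (Finsupp.single (n j) 1) + Pi.single (tv j) 1 = ex S m := by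
            rw [← hμ, ← zero_add (Finsupp.single (n j) 1), ex_add, ex_zero, zero_add,
              add_right_comm]
          rw [e3] at a1 a2 a3
          have e4 : bt A n (ex S m) = bt A n μ := by
            rw [← hμ, bt_add, bt_add, h.bt_T hj, h.bt_n hj, add_neg_cancel_right]
          have e5 := hm.2
          rw [← hμ] at e5
          simp only [Pi.add_apply, sum_add_distrib, sum_pi_single', mem_univ, if_true] at e5
          exact ⟨⟨⟨⟨a1.1 hm.1.1.1, a2 ▸ hm.1.1.2.1, a3 ▸ hm.1.1.2.2⟩, e4 ▸ hm.1.2⟩, by omega⟩, e2⟩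
        have h7 := rel_gen (f := f) j (mono_le (fun _ e => e.2) h6)
        rw [h.mul_rel hj, LinearMap.sub_apply, Module.End.mul_apply, e1] at h7
        exact TL.of_sub (Submodule.mem_sup_right h7) (ih (mono_le (fun _ e => e.1) h6))
  obtain ⟨N, hN⟩ := exists_deg x
  obtain ⟨y, hy, r, hr, rfl⟩ := Submodule.mem_sup.1 (key (N + 1) (by
    rw [mono_and]
    exact ⟨hx, mono_le (fun _ e => Nat.lt_succ_of_le e) hN⟩))
  exact ⟨y, hy, by simpa using hr⟩

theorem PD.pos_of (h1 : ¬ has K μ) (h2 : ¬ YP A μ) : Pos A (bt A n μ) := by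
  refine ⟨fun j hj => ?_, fun j hj => if_neg hj⟩
  have : μ (tv j) ≠ 0 := fun e => h2 ⟨j, hj, e⟩
  rw [bt, if_pos hj, h.free h1 hj]
  omega

theorem PD.st (hS : Upper (grd A n ρ) (Pos A) S) (γ : Γ) :
    St (Dloc δ ω f A) (ZZ Al c {j₀} A γ) (rel f ⊔ UU O A n S) := by
  intro p x hx hb
  obtain ⟨y, hy, h1⟩ := sat h.good hx hb
  obtain ⟨z, hz, h2⟩ := h.red (P := fun b => b ∈ S ∨ ¬ Pos A b) hy
  have h3 : x - z ∈ rel f := TL.of_eq (add_mem h1 h2) (by abel)
  refine TL.of_sub (y := Dloc δ ω f A z) ?_ (Submodule.mem_sup_right ?_)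
  · rw [← map_sub]
    exact Submodule.mem_sup_left (h.good.Dloc_rel A h3)
  · have h4 : z ∈ mono fun μ => bt A n μ ∈ S ∨ YP A μ := mono_le (fun μ hμ =>
      or_iff_not_imp_right.2 fun e => hμ.1.2.resolve_right
        (not_not.2 (h.pos_of (hμ.2.resolve_right e) e))) hz
    rw [mono_or] at h4
    obtain ⟨u, hu, v, hv, rfl⟩ := Submodule.mem_sup.1 h4
    rw [map_add]
    exact add_mem (h.D_up A (P := (· ∈ S)) (P' := fun b => b ∈ S ∨ ¬ Pos A b)
      (fun _ _ => up_UU hS) hu)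
      (mono_le (fun _ e => Or.inr (yp_pos e)) (h.D_Y A hv))

theorem PD.ses (γ : Γ) : Ses (Dloc δ ω f A) (ZZ Al c {j₀} A γ)
    (fun p => ZZ Al c {j₀} A γ p ⊓ mono (YP A)) (rel f) (rel f ⊔ UU O A n ∅) := by
  refine ⟨h.good.isCx subset_union_right γ, fun _ => inf_le_left,
    fun p x hx => ⟨h.good.Dloc_ZZ subset_union_right hx.1, h.D_Y A hx.2⟩,
    fun p x hx => ⟨fun hb => ?_, fun ⟨y, hy, e⟩ => TL.of_sub (Submodule.mem_sup_left e)
      (Submodule.mem_sup_right (mono_le (fun _ e => Or.inr (yp_pos e)) hy.2))⟩⟩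
  obtain ⟨y, hy, h1⟩ := sat h.good hx hb
  obtain ⟨z, hz, h2⟩ := h.red (P := fun b => b ∈ (∅ : Set (J → ℤ)) ∨ ¬ Pos A b) hy
  refine ⟨z, ⟨mono_le (fun _ e => e.1.1) hz, mono_le (fun μ hμ => by_contra fun e => ?_) hz⟩,
    TL.of_eq (add_mem h1 h2) (by abel)⟩
  exact hμ.1.2.resolve_left id (h.pos_of (hμ.2.resolve_right e) e)

theorem PD.tf_UU (hS : Upper (grd A n ρ) (Pos A) S) (hν : TF A ν)
    (hμ : bt A n μ ∈ S ∨ ¬ Pos A (bt A n μ)) :
    bt A n (ν + μ) ∈ S ∨ ¬ Pos A (bt A n (ν + μ)) := by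
  rw [bt_add]
  rcases hμ with e | e
  · exact up_UU hS e (h.tf_up hν _)
  · refine Or.inr fun e' => e ⟨fun j hj => ?_, fun j hj => if_neg hj⟩
    have h1 := e'.1 j hj
    rw [Pi.add_apply, bt, if_pos hj, hν j hj] at h1
    omega

end Pool.Agent.MP_8be872_ag.H27
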