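import Pool.Agent.MP_8be872_ag.H27.Pl2
import Pool.Agent.MP_8be872_ag.H63.SpecA

/-! Local cohomology along coordinates. -/

namespace Pool.Agent.MP_8be872_ag.H27

open Finset H63 MvPolynomial

variable {E O J Γ : Type} [Fintype E] [Fintype O] [Fintype J] [DecidableEq E] [DecidableEq O]
  [DecidableEq J] [AddCommGroup Γ]
  {Al : Gn E O J → Prop} {c : Gn E O J → Γ} {δ : Gn E O J → Op E O J} {ω : Op E O J}
  {f : J → MvPolynomial (E ⊕ J) ℂ} {j₀ : J} {A : Finset J} {n : J → E ⊕ J}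
  {K : Gn E O J → Prop} {ρ : Gn E O J → ℤ} {μ ν : Gn E O J → ℕ} {x : Sp (E ⊕ J) (O ⊕ J)}
  {S : Set (J → ℤ)} {γ : Γ} {p : Bool} {a : J → ℤ}

set_option linter.unusedSectionVars false

/-- The exponent vector of `ε_A T^a`. -/
structure Top (A : Finset J) (a : J → ℤ) (ν : Gn E O J → ℕ) : Prop where
  pos : Pos A a
  t : ∀ j, (ν (tv j) : ℤ) = a j
  e : ∀ j, ν (ev j) = if j ∈ A then 1 else 0
  z : ∀ g, ν g ≠ 0 → ∃ j ∈ A, g = tv j ∨ g = ev j
  od : od ν = decide (Odd A.card)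

theorem exists_top (ha : Pos A a) :
    ∃ (ν : Gn E O J → ℕ) (m : Op E O J), IsW ν m ∧ Top A a ν := by
  obtain ⟨m, hm⟩ := exists_W (A.map (Function.Embedding.inr : J ↪ O ⊕ J))
    (Finsupp.equivFunOnFinite.symm (Sum.elim 0 fun j => (a j).toNat : E ⊕ J → ℕ))
  have h0 : ∀ j, 0 ≤ a j := fun j => by
    by_cases hj : j ∈ A
    · linarith [ha.1 j hj]
    · rw [ha.2 j hj]
  refine ⟨_, m, hm, ha, fun j => by simp [ex, h0], fun j => by simp [ex], ?_, ?_⟩
  · rintro ((e | j) | (o | j)) hg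
    · simp [ex] at hg
    · refine ⟨j, by_contra fun hj => ?_, Or.inl rfl⟩
      simp [ex, ha.2 j hj] at hg
    · simp [ex] at hg
    · exact ⟨j, by simpa [ex] using hg, Or.inr rfl⟩
  · simp only [od, ex, Sum.elim_inr, sum_ite_mem, univ_inter, sum_const, card_map, smul_eq_mul,
      mul_one]

theorem comm_T (F : MvPolynomial (E ⊕ J) ℂ) {b : Bool} {m : Op E O J}
    (hm : m ∈ words fun μ => μ (tv j₀) = 0 ∧ od μ = b) :
    m * gn (tv j₀) = gn (tv j₀) * m ∧ m * dr (tv j₀) = dr (tv j₀) * m ∧ m * mul F = mul F * m := by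
  refine ⟨?_, ?_, (mul_comm_words F hm).symm⟩
  · simpa [sg] using words_comm (words_le (fun _ e => e.2) hm)
      (gn_mem_words (P := fun μ => od μ = false) (od_single (tv j₀)))
  · have := words_bot (dr_br (tv j₀) hm fun μ e => by simp at e)
    rw [sub_eq_zero] at this
    simpa [sg] using this.symm

theorem pat_mul (B : Finset J) (q : MvPolynomial (E ⊕ J) ℂ) (x : Sp (E ⊕ J) (O ⊕ J)) :
    proj (pat B) (mul q x) = mul q (proj (pat B) x) := by
  have hq : (mul q : Op E O J) ∈ words fun μ => ∀ j, μ (ev j) = 0 :=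
    mul_mem_words_of_pol (pol_mem.2 fun m _ j => by simp [ex])
  refine proj_comm (A := fun _ => True) (fun y hy => words_apply_mem hq hy ?_)
    (fun y hy => words_apply_mem hq hy ?_) (apiC_top x)
  · exact fun u v hu hv j hj => hv.2 j (by simpa [hu j] using hj)
  · exact fun u v hu hv e => hv.2 fun j hj => e j (by simpa [hu j] using hj)

variable (h : PD Al c δ ω f j₀ A n K ρ)
include h

theorem PD.top_bt (hν : Top A a ν) : bt A n ν = a := by
  funext j
  rw [bt]
  split_ifs with hj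
  · have : ν (.inl (n j)) = 0 := by_contra fun e => by
      obtain ⟨i, -, e | e⟩ := hν.z _ e
      · exact h.ne hj i e
      · simp at e
    rw [this, hν.t]
    simp
  · exact (hν.pos.2 j hj).symm

theorem PD.top_ws (hν : Top A a ν) : ws c ν = -∑ j, a j • c (.inl (n j)) := by
  have hz : ∀ g, (∀ j, g ≠ tv j ∧ g ≠ ev j) → ν g = 0 := fun g hg => by_contra fun e => by
    obtain ⟨j, -, e | e⟩ := hν.z _ e
    · exact (hg j).1 e
    · exact (hg j).2 e
  have h1 : ∀ e : E, ν (.inl (.inl e)) = 0 := fun e => hz _ (by simp)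
  have h2 : ∀ o : O, ν (.inr (.inl o)) = 0 := fun e => hz _ (by simp)
  simp only [ws, Fintype.sum_sum_type, h1, h2, zero_smul, sum_const_zero, zero_add, h.good.wtE,
    smul_zero, add_zero, ← sum_neg_distrib]
  refine sum_congr rfl fun j _ => ?_
  rw [← natCast_zsmul, hν.t]
  by_cases hj : j ∈ A
  · have := (pol_mem.1 (h.good.fw j) (Finsupp.single (n j) 1) (by rw [h.hf j hj]; simp)).2
    rw [← zero_add (Finsupp.single (n j) 1), ex_add, ex_zero, zero_add, ws_single] at this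
    rw [this, smul_neg, neg_neg]
  · rw [hν.pos.2 j hj]
    simp

theorem PD.cech_tf (hμ : cech Al {j₀} ∅ μ) : TF A μ ∧ ∀ j ∈ A, μ (ev j) = 0 := by
  have h1 : ∀ j ∈ A, μ (ev j) = 0 := fun j hj => by_contra fun e => by
    rcases hμ.1 _ e with e | ⟨i, e, -⟩ | ⟨i, hi, e⟩
    · exact h.good.alE j e
    · simp at e
    · simp only [union_empty, mem_singleton, Sum.inr.injEq] at hi e
      exact h.hj (hi ▸ e ▸ hj)
  refine ⟨fun j hj => by_contra fun e => ?_, h1⟩
  rcases hμ.1 _ e with e | ⟨i, e, e'⟩ | ⟨i, -, e⟩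
  · exact h.good.alT j e
  · simp only [Sum.inl.injEq, Sum.inr.injEq] at e
    exact e' (h1 i (e ▸ hj))
  · simp at e

theorem PD.unit (N : ℕ) (hx : x ∈ mono fun μ => μ (ev j₀) ≠ 0)
    (hb : mul (f j₀ ^ N) x ∈ rel f ⊔ mono (has K)) : x ∈ rel f ⊔ mono (has K) := by
  have hF : (mul (f j₀) : Op E O J) ∈ words fun _ => True :=
    mul_mem_words_of_pol (apiC_top _)
  induction N generalizing x with
  | zero => simpa [show (mul 1 : Op E O J) = 1 from map_one mulA] using hb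
  | succ N ih =>
    rw [pow_succ, mul_mul, Module.End.mul_apply] at hb
    obtain ⟨r, hr, v, hv, e⟩ := Submodule.mem_sup.1
      (ih (words_apply_mem hF hx fun u v _ hv => by rw [Pi.add_apply]; omega) hb)
    have h1 : gn (tv j₀) (mul (f j₀) x) ∈ rel f ⊔ mono (has K) := by
      rw [← e, map_add]
      exact Submodule.add_mem_sup (words_rel (gn_mem_words (P := fun _ => True) trivial) hr)
        (gn_mem _ hv fun μ hμ => has_add.2 (Or.inl hμ))
    refine TL.of_sub' (Submodule.mem_sup_left (TL.of_eq (rel_gen (f := f) j₀ hx) ?_)) h1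
    funext T
    simp only [gn, Pi.sub_apply, mul_apply']
    ring

theorem PD.inj_top (hS : Upper (grd A n ρ) (Pos A) S) (haS : a ∉ S) {m : Op E O J}
    (hm : IsW ν m) (hν : Top A a ν) (hx : x ∈ ZZ Al c {j₀} ∅ γ p)
    (hb : m x ∈ rel f ⊔ UU O A n S) : x ∈ rel f ⊔ mono (has K) := by
  set C : Submodule ℂ (Sp (E ⊕ J) (O ⊕ J)) := (⨆ j : A, LinearMap.range
    (gn (.inl (n j.1)) * gn (tv j.1) - 1 : Op E O J)) ⊔ UU O A n S with hC
  have hT0 : ∀ j ∈ A, (tv j₀ : Gn E O J) ≠ tv j := fun j hj e => h.hj (by simp at e; rwa [e])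
  have hν0 : ν (tv j₀) = 0 := by
    have := hν.t j₀
    rw [hν.pos.2 j₀ h.hj] at this
    exact_mod_cast this
  have hr : ∀ j ∈ A, (gn (.inl (n j)) * gn (tv j) - 1 : Op E O J) ∈ words fun μ =>
      (μ (tv j₀) = 0 ∧ od μ = false) ∧ bt A n μ = 0 := fun j hj => by
    refine sub_mem (mul_mem_words (gn_mem_words (P := fun μ => μ = Pi.single _ 1) rfl)
      (gn_mem_words (P := fun μ => μ = Pi.single _ 1) rfl) ?_)
      (one_mem_words ⟨⟨rfl, od_zero⟩, funext fun i => by simp [bt]⟩)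
    rintro _ _ rfl rfl
    refine ⟨⟨?_, by simp [od_add, od_single]⟩, by rw [bt_add, h.bt_T hj, h.bt_n hj, neg_add_cancel]⟩
    rw [Pi.add_apply, Pi.single_eq_of_ne (h.ne hj j₀).symm, Pi.single_eq_of_ne (hT0 j hj), add_zero]
  have hF : (mul (f j₀) : Op E O J) ∈ words (sup Al) :=
    mul_mem_words_of_pol (mono_le (fun _ e => e.1) (h.good.fw j₀))
  have hcl : ∀ L : Op E O J, (∀ j ∈ A, (gn (.inl (n j)) * gn (tv j) - 1) * L =
      L * (gn (.inl (n j)) * gn (tv j) - 1)) → (∀ u ∈ UU O A n S, L u ∈ UU O A n S) →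
      ∀ u ∈ C, L u ∈ C := fun L h1 h2 => by
    refine (sup_le (iSup_le fun j => ?_) fun u hu => Submodule.mem_sup_right (h2 u hu) :
      C ≤ C.comap L)
    rintro _ ⟨w, rfl⟩
    refine Submodule.mem_sup_left (Submodule.mem_iSup_of_mem j ⟨L w, ?_⟩)
    exact LinearMap.congr_fun (h1 j j.2) w
  have b0 : bt A n (Pi.single (tv j₀ : Gn E O J) 1) = 0 := h.bt_else (h.kT j₀) hT0
  have c1 := hcl (mul (f j₀)) (fun j hj => (comm_T _ (words_le (fun _ e => e.1) (hr j hj))).2.2)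
    fun u hu => words_apply_mem hF hu fun u v e => h.tf_UU hS fun j _ => h.al_T e j
  have c2 := hcl (gn (tv j₀)) (fun j hj => (comm_T 0 (words_le (fun _ e => e.1) (hr j hj))).1)
    fun u hu => gn_mem _ hu fun μ e => by rwa [bt_add, b0, add_zero]
  have c3 := hcl (dr (tv j₀)) (fun j hj => (comm_T 0 (words_le (fun _ e => e.1) (hr j hj))).2.1)
    fun u hu => dr_mem _ hu fun μ e => by rwa [bt_add, b0, add_zero] at e
  obtain ⟨w, hw⟩ : ∃ w, m x - mul (f j₀ * X (.inr j₀) - 1) w ∈ C := by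
    have h1 : rel f ⊔ UU O A n S ≤ (LinearMap.range (mul (f j₀ * X (.inr j₀) - 1)) ⊔ C).comap
        (proj (pat (insert j₀ A))) := by
      refine sup_le ?_ fun u hu =>
        Submodule.mem_sup_right (Submodule.mem_sup_right (proj_mem_of hu))
      rw [rel_eq]
      refine iSup_le fun j => ?_
      rintro _ ⟨w, rfl⟩
      rw [Submodule.mem_comap, Module.End.mul_apply, pat_mul]
      by_cases hj : j ∈ insert j₀ A
      · rcases mem_insert.1 hj with rfl | hj
        · exact Submodule.mem_sup_left ⟨_, rfl⟩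
        · rw [h.mul_rel hj]
          exact Submodule.mem_sup_right (Submodule.mem_sup_left
            (Submodule.mem_iSup_of_mem ⟨j, hj⟩ ⟨_, rfl⟩))
      · rw [proj_eq_zero (gn_mem _ (apiC_top w) fun μ _ e => hj (e j (by simp))), map_zero]
        exact zero_mem _
    have h2 := h1 hb
    rw [Submodule.mem_comap, proj_eq_self (hm.mem hx fun b e j hj => by
      by_contra hj'
      rw [mem_insert, not_or] at hj'
      rw [Pi.add_apply, hν.e, if_neg hj'.2, zero_add] at hj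
      rcases e.1.1 _ hj with e | ⟨i, e, -⟩ | ⟨i, hi, e⟩
      · exact h.good.alE j e
      · simp at e
      · simp only [union_empty, mem_singleton, Sum.inr.injEq] at hi e
        exact hj'.1 (e.trans hi))] at h2
    obtain ⟨_, ⟨w, rfl⟩, u, hu, e⟩ := Submodule.mem_sup.1 h2
    exact ⟨w, TL.of_eq hu (by rw [← e, add_sub_cancel_left])⟩
  classical
  obtain ⟨N, hN⟩ := clear (O := O) h.good.tfree j₀ {w, x}
  obtain ⟨σ, -, s2, s3, -, s5, s6⟩ := hN N le_rfl
  obtain ⟨m1, m2, m3⟩ := comm_T (f j₀) (hm.words (P := fun μ => μ (tv j₀) = 0 ∧ od μ = _)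
    ⟨hν0, hν.od⟩)
  have h3 : m (σ x) ∈ C := by
    have := s6 C c1 c2 c3 _ hw
    rwa [map_sub, s3 w (by simp), sub_zero, ← Module.End.mul_apply, ← s5 m m1 m2 m3] at this
  have h4 : σ x ∈ mono fun μ => TF A μ ∧ ∀ j ∈ A, μ (ev j) = 0 := by
    refine s6 _ (fun u hu => words_apply_mem hF hu fun u v e e' => ⟨fun j hj => ?_, fun j hj => ?_⟩)
      (fun u hu => gn_mem _ hu fun μ e => ⟨fun j hj => ?_, fun j hj => ?_⟩)
      (fun u hu => dr_mem _ hu fun μ e => ⟨fun j hj => ?_, fun j hj => ?_⟩) x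
      (mono_le (fun _ e => h.cech_tf e.1) hx)
    · rw [Pi.add_apply, h.al_T e, e'.1 j hj]
    · rw [Pi.add_apply, h.al_E e, e'.2 j hj]
    · rw [Pi.add_apply, e.1 j hj, Pi.single_eq_of_ne (hT0 j hj).symm, add_zero]
    · simpa using e.2 j hj
    · exact (Nat.add_eq_zero_iff.1 (e.1 j hj)).1
    · exact (Nat.add_eq_zero_iff.1 (e.2 j hj)).1
  obtain ⟨κ, k1, k2, k3⟩ := exists_kap (fun g : Gn E O J => K g ∨ ∃ j ∈ A, g = tv j) (by
    rintro g (e | ⟨j, -, rfl⟩)
    · obtain ⟨j, -, rfl⟩ := (h.hK g).1 e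
      rfl
    · rfl)
  have h5 : C ≤ LinearMap.ker (κ ∘ₗ proj fun μ => bt A n μ = a) := by
    refine sup_le (iSup_le fun j => ?_) fun u hu => ?_
    · rintro _ ⟨w, rfl⟩
      rw [LinearMap.mem_ker, LinearMap.comp_apply, proj_comm (A := fun _ => True)
        (P := fun μ => bt A n μ = a)
        (fun y hy => words_apply_mem (hr j j.2) hy fun u v e e' => by
          rw [bt_add, e.2, zero_add, e'.2])
        (fun y hy => words_apply_mem (hr j j.2) hy fun u v e e' => by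
          rw [bt_add, e.2, zero_add]
          exact e'.2) (apiC_top w), LinearMap.sub_apply, map_sub, Module.End.mul_apply,
        k1 _ _ (Or.inl (h.kn j.2)), k1 _ _ (Or.inr ⟨j, j.2, rfl⟩), Module.End.one_apply, sub_self]
    · rw [LinearMap.mem_ker, LinearMap.comp_apply, proj_eq_zero (mono_le (fun μ e e' => by
        rw [e'] at e
        exact e.elim haS fun e => e hν.pos) hu), map_zero]
  have h6 := h5 h3
  rw [LinearMap.mem_ker, LinearMap.comp_apply, proj_comm (P := fun μ => ¬ has K μ)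
    (fun y hy => hm.mem hy fun b e => by
      rw [bt_add, h.top_bt hν, ((h.tf_gr e.1.1).resolve_right fun e' => e.2 e'.1).2, add_zero])
    (fun y hy => hm.mem hy fun b e e' => by
      have := ((h.tf_gr e.1.1).resolve_left fun e' => e.2 e'.1).2
      rw [bt_add, h.top_bt hν, add_eq_left] at e'
      rw [e', grd_zero] at this
      exact lt_irrefl _ this) h4] at h6
  have h7 : proj (fun μ => ¬ has K μ) (σ x) ∈ mono fun μ =>
      ¬ has K μ ∧ TF A μ ∧ ∀ j ∈ A, μ (ev j) = 0 := by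
    rw [mono_and]
    exact ⟨proj_mem _, proj_mem_of h4⟩
  have h8 := hm.inj k1 k2 (fun g hg => by
      by_contra e
      obtain ⟨j, hj, rfl | rfl⟩ := hν.z g (by omega)
      · exact hg (Or.inr ⟨j, hj, rfl⟩)
      · have := hν.e j
        rw [if_pos hj] at this
        omega)
    (k3 _ (mono_le (fun μ e g hg => by
      rintro (e' | ⟨j, hj, rfl⟩)
      · exact e.1 ⟨g, e', hg⟩
      · exact hg (e.2.1 j hj)) h7))
    (mono_le (fun μ e g hg => by
      obtain ⟨j, hj, rfl | rfl⟩ := hν.z g hg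
      · exact e.2.1 j hj
      · exact e.2.2 j hj) h7) h6
  have h9 := sub_proj_mem (P := fun μ => ¬ has K μ) (σ x)
  rw [h8, sub_zero] at h9
  have hx0 : x ∈ mono fun μ => μ (ev j₀) ≠ 0 :=
    mono_le (fun μ e => e.1.2.1 j₀ (mem_singleton_self _)) hx
  obtain ⟨z, e1, e2⟩ := s2 x (by simp)
  refine h.unit N hx0 (TL.of_sub' (Submodule.mem_sup_left ?_)
    (Submodule.mem_sup_right (mono_le (fun _ => not_not.1) h9)))
  rw [e1]
  exact rel_gen j₀ (e2 _
    (fun u hu => words_apply_mem hF hu fun u v _ e => by rw [Pi.add_apply]; omega)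
    (fun u hu => gn_mem _ hu fun μ e => by simpa using e)
    (fun u hu => dr_mem _ hu fun μ e => by simpa using e) hx0)

theorem PD.piece (hS : Upper (grd A n ρ) (Pos A) S) (hS' : Upper (grd A n ρ) (Pos A) (insert a S))
    (ha : Pos A a) (haS : a ∉ S) (γ : Γ) :
    (∀ k, HasChi (Dloc δ ω f ∅) (ZZ Al c {j₀} ∅ (γ + ∑ j, a j • c (.inl (n j))))
        (rel f ⊔ mono (has K)) k ↔ HasChi (Dloc δ ω f A)
        (fun p => ZZ Al c {j₀} A γ p ⊓ (rel f ⊔ UU O A n (insert a S))) (rel f ⊔ UU O A n S)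
        (sgA A k)) ∧
      (Acy (Dloc δ ω f ∅) (ZZ Al c {j₀} ∅ (γ + ∑ j, a j • c (.inl (n j))))
        (rel f ⊔ mono (has K)) ↔ Acy (Dloc δ ω f A)
        (fun p => ZZ Al c {j₀} A γ p ⊓ (rel f ⊔ UU O A n (insert a S))) (rel f ⊔ UU O A n S)) := by
  obtain ⟨ν, m, hm, hν⟩ := exists_top (E := E) (O := O) ha
  set s := decide (Odd A.card) with hs
  have hgt : ∀ b, grd A n ρ a < grd A n ρ b → b ∈ S ∨ ¬ Pos A b := fun b hb =>
    (up_UU hS' (Set.mem_insert _ _) (Or.inr hb)).imp_left fun e => e.resolve_left fun e' => by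
      rw [e'] at hb
      exact lt_irrefl _ hb
  have mZ : ∀ p, ∀ x ∈ ZZ Al c {j₀} ∅ (γ + ∑ j, a j • c (.inl (n j))) p,
      m x ∈ ZZ Al c {j₀} A γ (xor p s) ⊓ (rel f ⊔ UU O A n (insert a S)) := fun p x hx => by
    refine ⟨hm.mem hx fun b e => ⟨⟨fun g hg => ?_, fun j hj => ?_, ?_⟩, ?_, ?_⟩,
      Submodule.mem_sup_right (hm.mem hx fun b e => ?_)⟩
    · by_cases h0 : ν g = 0
      · rw [Pi.add_apply, h0, zero_add] at hg
        refine (e.1.1 g hg).imp_right (Or.imp ?_ ?_)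
        · rintro ⟨j, e1, e2⟩
          exact ⟨j, e1, by rw [Pi.add_apply]; omega⟩
        · rintro ⟨j, e1, e2⟩
          exact ⟨j, mem_union_left _ (by simpa using e1), e2⟩
      · obtain ⟨j, hj, e1 | e1⟩ := hν.z g h0
        · exact Or.inr (Or.inl ⟨j, e1, by rw [Pi.add_apply, hν.e, if_pos hj]; omega⟩)
        · exact Or.inr (Or.inr ⟨j, mem_union_right _ hj, e1⟩)
    · have := e.1.2.1 j hj
      rw [Pi.add_apply]
      omega
    · obtain ⟨j, hj⟩ := e.1.2.2
      exact ⟨j, by rw [Pi.add_apply]; omega⟩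
    · rw [ws_add, h.top_ws hν, e.2.1]
      abel
    · rw [od_add, hν.od, e.2.2, Bool.xor_comm]
    · rw [bt_add, h.top_bt hν, add_comm]
      exact up_UU hS' (Set.mem_insert _ _) (h.tf_up (h.cech_tf e.1).1 a)
  have hZ : ∀ p, ∀ x ∈ ZZ Al c {j₀} A γ p, Dloc δ ω f A x ∈ ZZ Al c {j₀} A γ (!p) :=
    fun p x hx => h.good.Dloc_ZZ subset_union_right hx
  have hD : ∀ x, Dloc δ ω f A (Dloc δ ω f A x) = 0 := LinearMap.congr_fun (h.good.Dloc_sq A)
  have hmo : m ∈ words fun μ => od μ = s := hm.words hν.od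
  have hss : sg s * sg s = 1 := sg_mul_self s
  have hbr : Dloc δ ω f A * m - sg s • (m * Dloc δ ω f ∅) ∈
      words fun μ => grd A n ρ a < grd A n ρ (bt A n μ) := by
    have h1 := vf_br (s := true) (P' := fun μ => grd A n ρ a < grd A n ρ (bt A n μ))
      (fun g => words_le (fun μ e => ⟨e.1, by simpa using e.2⟩)
        (words_and (h.dl_mem g) (h.good.dl_odd g)))
      (hm.words (P := fun μ => μ = ν ∧ od μ = s) ⟨rfl, hν.od⟩)
      fun g μ ν e e' => by
        have := e'.2.1 (hν.z g (by rw [← e]; simp))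
        rw [← h.top_bt hν, ← e, bt_add, bt_add, grd_add, grd_add]
        omega
    have h2 := words_comm (words_le (fun _ e => e.2.2) h.good.ow) hmo
    have h3 : ∀ j ∈ A, gn (ev j) * m = 0 := fun j hj =>
      words_bot (words_le_odd (P := fun μ => 2 ≤ μ (ev j)) (fun μ e e' =>
        absurd (e'.trans (e (.inr j))) (by omega)) (mul_mem_words (gn_mem_words (P := fun μ => μ (ev j) = 1) (by simp))
        (hm.words (P := fun μ => μ (ev j) = 1) (by rw [hν.e, if_pos hj]))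
        fun u v e e' => by rw [Pi.add_apply]; omega))
    rw [Bool.true_and] at h1 h2
    refine TL.of_eq h1 ?_
    rw [h.good.Dloc_eq, h.good.Dloc_eq, sum_empty, add_zero, add_mul, add_mul, sum_mul,
      sum_eq_zero h3, h2, mul_add, smul_add]
    abel
  have hc : ChMap m s (Dloc δ ω f ∅) (ZZ Al c {j₀} ∅ (γ + ∑ j, a j • c (.inl (n j))))
      (rel f ⊔ mono (has K)) (Dloc δ ω f A)
      (fun p => ZZ Al c {j₀} A γ p ⊓ (rel f ⊔ UU O A n (insert a S))) (rel f ⊔ UU O A n S) := by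
    refine ⟨h.good.isCx_kill (empty_subset _) _ (fun g e => (h.kAl g e).1) h.dK,
      cx_sat hZ hD (h.st hS γ) (h.st hS' γ), fun p x hx => ⟨m x, mZ p x hx, by simp⟩,
      fun p x hx hb => ?_, fun p => ⟨sg s, left_ne_zero_of_mul_eq_one hss, fun x hx y hy e => ?_⟩⟩
    · obtain ⟨y, hy, e⟩ := sat h.good hx hb
      refine TL.of_sub (y := m y) ?_ (Submodule.mem_sup_right (hm.mem hy fun b e => hgt _ ?_))
      · rw [← map_sub]
        exact Submodule.mem_sup_left (words_rel hmo e)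
      · have := ((h.tf_gr (h.cech_tf e.1.1).1).resolve_left fun e' => e'.1 e.2).2
        rw [bt_add, h.top_bt hν, grd_add]
        omega
    · have a1 := h.st hS γ _ _ (sub_mem (mZ p x hx).1 hy.1) e
      have a2 : (Dloc δ ω f A * m - sg s • (m * Dloc δ ω f ∅)) x ∈ rel f ⊔ UU O A n S :=
        Submodule.mem_sup_right (words_apply_mem hbr hx fun u v e e' => hgt _ (by
          rcases h.tf_gr (h.cech_tf e'.1).1 with e1 | e1
          · rwa [bt_add, e1.2, add_zero]
          · have := e1.2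
            rw [bt_add, grd_add]
            omega))
      refine TL.of_eq (Submodule.smul_mem _ (sg s) (sub_mem a1 a2)) ?_
      simp only [map_sub, LinearMap.sub_apply, LinearMap.smul_apply, Module.End.mul_apply, smul_sub,
        smul_smul, hss, one_smul]
      abel
  refine hc.iso (fun p x hx => ?_) fun p x hx hb => h.inj_top hS haS hm hν hx hb
  obtain ⟨y, hy, h1⟩ := sat h.good hx.1 hx.2
  obtain ⟨z, hz, h2⟩ := h.red (P := fun b => b ∈ insert a S ∨ ¬ Pos A b) hy
  have h3 : z ∈ mono fun μ => (((cech Al {j₀} A μ ∧ ws c μ = γ ∧ od μ = xor p s) ∧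
      bt A n μ = a ∧ ¬ has K μ) ∧ ∀ o, μ (.inr o) ≤ 1) ∨
      (bt A n μ ∈ S ∨ ¬ Pos A (bt A n μ)) := by
    refine mono_le_odd (fun μ e0 e => or_iff_not_imp_right.2 fun e' => ?_) hz
    rw [not_or, not_not] at e'
    exact ⟨⟨e.1.1, (e.1.2.resolve_right (not_not.2 e'.2)).resolve_right e'.1,
      e.2.resolve_right fun e1 => yp_pos e1 e'.2⟩, e0⟩
  rw [mono_or] at h3
  obtain ⟨u, hu, v, hv, rfl⟩ := Submodule.mem_sup.1 h3
  have hT : ∀ μ : Gn E O J → ℕ, bt A n μ = a → ¬ has K μ → ∀ j ∈ A, μ (tv j) = ν (tv j) :=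
    fun μ e1 e2 j hj => by
      have e3 := congrFun e1 j
      have e4 := hν.t j
      rw [bt, if_pos hj, h.free e2 hj] at e3
      omega
  obtain ⟨x', hx', rfl⟩ := hm.div hu fun μ e g => by
    by_cases h0 : ν g = 0
    · omega
    · obtain ⟨j, hj, rfl | rfl⟩ := hν.z g h0
      · exact (hT μ e.1.2.1 e.1.2.2 j hj).ge
      · have e1 := hT μ e.1.2.1 e.1.2.2 j hj
        have e2 := hν.t j
        have e3 := ha.1 j hj
        have e4 := hν.e j
        rw [if_pos hj] at e4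
        rcases e.1.1.1.1 (tv j) (by omega) with e5 | ⟨i, e5, e6⟩ | ⟨i, -, e5⟩
        · exact (h.good.alT j e5).elim
        · simp only [Sum.inl.injEq, Sum.inr.injEq] at e5
          subst e5
          omega
        · simp at e5
  refine ⟨x', mono_le (fun μ e => ?_) hx', TL.of_eq (add_mem
    (Submodule.mem_sup_left (add_mem h1 h2)) (Submodule.mem_sup_right hv)) (by abel)⟩
  obtain ⟨⟨⟨e1, e2, e3⟩, e4, e5⟩, e6⟩ := e
  have f1 : ∀ j ∈ A, μ (tv j) = 0 := fun j hj => by
    have := hT _ e4 e5 j hj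
    rw [Pi.add_apply] at this
    omega
  have f2 : ∀ j ∈ A, μ (ev j) = 0 := fun j hj => by
    have : (ν + μ) (ev j) ≤ 1 := e6 (.inr j)
    rw [Pi.add_apply, hν.e, if_pos hj] at this
    omega
  have f3 : ∀ j ∉ A, (ν + μ) (ev j) = μ (ev j) := fun j hj => by
    rw [Pi.add_apply, hν.e, if_neg hj, zero_add]
  have f4 : μ (ev j₀) ≠ 0 := f3 j₀ h.hj ▸ e1.2.1 j₀ (mem_singleton_self _)
  refine ⟨⟨fun g hg => ?_, fun j hj => mem_singleton.1 hj ▸ f4, j₀, f4⟩, ?_, ?_⟩
  · refine (e1.1 g (by rw [Pi.add_apply]; omega)).imp_right (Or.imp ?_ ?_)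
    · rintro ⟨j, rfl, e7⟩
      exact ⟨j, rfl, f3 j (fun hj => hg (f1 j hj)) ▸ e7⟩
    · rintro ⟨j, hj, rfl⟩
      exact ⟨j, mem_union_left _ ((mem_union.1 hj).resolve_right fun hj => hg (f2 j hj)), rfl⟩
  · rw [ws_add, h.top_ws hν] at e2
    rw [← e2]
    abel
  · rw [od_add, hν.od, ← hs] at e3
    revert e3
    cases od μ <;> cases p <;> cases s <;> simp

omit h in
theorem pole : PoleStmt := by
  intro E O J Γ _ _ _ _ _ _ _ Al c δ ω f hg j₀ A n K ρ h1 h2 h3 h4 h5 h6 h7 _ hY l C e hl he hA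
  have h : PD Al c δ ω f j₀ A n K ρ := ⟨hg, h1, h2, h3, h4, h5, h6, h7⟩
  have he0 : ∀ γ, C < l γ → e γ = 0 := fun γ hγ => (he γ).unique (hA γ hγ).hasChi
  have hl' : ∀ j ∈ A, 0 < l (c (.inl (n j))) := fun j hj => hl _ (h.kn hj)
  refine ⟨fun γ => ∑ᶠ b ∈ {b | Pos A b}, sgA A (e (γ + ∑ j, b j • c (.inl (n j)))), fun γ => ?_,
    tele _ l C e he0 A hl', fun γ hγ => finsum_mem_of_eqOn_zero fun b hb => ?_⟩
  · have := (h.ses γ).chi_mid (hY γ).hasChi (filt (V := fun S => rel f ⊔ UU O A n S)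
      (fun p x hx => hg.Dloc_ZZ subset_union_right hx) (LinearMap.congr_fun (hg.Dloc_sq A))
      (grd A n ρ) (Pos A)
      (fun S S' e => sup_le_sup_left (mono_le fun μ => Or.imp_left fun e' => e e') _)
      (fun S hS => h.st hS γ) (fun x => ?_) (fun k => ?_)
      (fun b => sgA A (e (γ + ∑ j, b j • c (.inl (n j)))))
      (fun b => ¬ C < l (γ + ∑ j, b j • c (.inl (n j)))) (fin_bad A _ l hl' C γ)
      (fun b _ hb => by rw [he0 _ (not_not.1 hb)]; simp [sgA])
      fun S a hS hS' ha haS => ⟨((h.piece hS hS' ha haS γ).1 _).1 (he _),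
        fun hb => (h.piece hS hS' ha haS γ).2.1 (hA _ (not_not.1 hb))⟩)
    · rwa [zero_add] at this
    · obtain ⟨k, hk⟩ := exists_bd (fun μ => (-grd A n ρ (bt A n μ)).toNat) x
      exact ⟨k, Submodule.mem_sup_right (mono_le (fun μ e => or_iff_not_imp_right.2 fun e' =>
        ⟨not_not.1 e', by omega⟩) hk)⟩
    · refine (fin_pos A (fun j => -ρ (.inl (n j))) (fun j hj => neg_pos.2 (h5 _ (h.kn hj)).2)
        k).subset fun b hb => ⟨hb.1, ?_⟩
      have e1 := hb.2
      rw [grd, sum_subset (subset_univ A) fun j _ hj => by rw [hb.1.2 j hj, mul_zero]] at e1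
      simp only [mul_comm (b _), neg_mul, sum_neg_distrib]
      omega
  · have : 0 ≤ ∑ j, b j * l (c (.inl (n j))) := sum_nonneg fun j _ => by
      by_cases hj : j ∈ A
      · exact mul_nonneg (by linarith [hb.1 j hj]) (hl' j hj).le
      · rw [hb.2 j hj, zero_mul]
    rw [he0 _ (by simp only [map_add, map_sum, map_zsmul, smul_eq_mul]; omega)]
    simp [sgA]

end Pool.Agent.MP_8be872_ag.H27
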